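import Pool.Agent.H699.MX.Defs

/-!
# Endpoints of the support (helper16 for helper699)
-/

set_option autoImplicit false

open MeasureTheory Set

namespace Pool.Agent.H16.MX.EXT

open Pool.Agent.H699.MX

/-- the mass of the open half line below the supremum of the null points is zero -/
theorem null_Iio (μ : Measure ℝ) (A : Set ℝ) (hA : ∀ x ∈ A, μ (Iio x) = 0) (hne : A.Nonempty) :
    μ (Iio (sSup A)) = 0 := by
  have hsub : Iio (sSup A) ⊆ ⋃ n : ℕ, Iio (sSup A - 1 / ((n : ℝ) + 1)) := by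
    intro y hy
    obtain ⟨n, hn⟩ := exists_nat_one_div_lt (sub_pos.2 (show y < sSup A from hy))
    refine mem_iUnion.2 ⟨n, ?_⟩
    show y < _
    linarith
  refine measure_mono_null hsub (measure_iUnion_null fun n => ?_)
  have hpos : (0 : ℝ) < 1 / ((n : ℝ) + 1) := by positivity
  obtain ⟨x, hx, hxl⟩ := exists_lt_of_lt_csSup hne
    (show sSup A - 1 / ((n : ℝ) + 1) < sSup A by linarith)
  exact measure_mono_null (Iio_subset_Iio hxl.le) (hA x hx)

theorem null_Ioi (μ : Measure ℝ) (B : Set ℝ) (hB : ∀ x ∈ B, μ (Ioi x) = 0) (hne : B.Nonempty) :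
    μ (Ioi (sInf B)) = 0 := by
  have hsub : Ioi (sInf B) ⊆ ⋃ n : ℕ, Ioi (sInf B + 1 / ((n : ℝ) + 1)) := by
    intro y hy
    obtain ⟨n, hn⟩ := exists_nat_one_div_lt (sub_pos.2 (show sInf B < y from hy))
    refine mem_iUnion.2 ⟨n, ?_⟩
    show _ < y
    linarith
  refine measure_mono_null hsub (measure_iUnion_null fun n => ?_)
  have hpos : (0 : ℝ) < 1 / ((n : ℝ) + 1) := by positivity
  obtain ⟨x, hx, hxl⟩ := exists_lt_of_csInf_lt hne
    (show sInf B < sInf B + 1 / ((n : ℝ) + 1) by linarith)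
  exact measure_mono_null (Ioi_subset_Ioi hxl.le) (hB x hx)

theorem t_EXT : ∀ (μ : Measure ℝ) (b : ℝ), IsProbabilityMeasure μ → (∀ x, μ {x} = 0) →
    μ (Set.Icc 0 b)ᶜ = 0 → ∃ a' b' : ℝ, Good μ a' b' := by
  intro μ b hμ hat hsupp
  have hfull : μ (Icc 0 b) ≠ 0 := by
    intro h
    have h1 : μ univ = 0 := by
      rw [← union_compl_self (Icc (0 : ℝ) b)]
      exact measure_union_null h hsupp
    rw [measure_univ] at h1
    exact one_ne_zero h1
  obtain ⟨A, hAdef⟩ : ∃ A : Set ℝ, A = {x | μ (Iio x) = 0} := ⟨_, rfl⟩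
  obtain ⟨B, hBdef⟩ : ∃ B : Set ℝ, B = {x | μ (Ioi x) = 0} := ⟨_, rfl⟩
  have hA : ∀ x, x ∈ A ↔ μ (Iio x) = 0 := fun x => by rw [hAdef]; rfl
  have hB : ∀ x, x ∈ B ↔ μ (Ioi x) = 0 := fun x => by rw [hBdef]; rfl
  have hA0 : (0 : ℝ) ∈ A := by
    rw [hA]
    refine measure_mono_null ?_ hsupp
    intro x hx hx'
    exact absurd hx'.1 (not_le.2 hx)
  have hBb : b ∈ B := by
    rw [hB]
    refine measure_mono_null ?_ hsupp
    intro x hx hx'
    exact absurd hx'.2 (not_le.2 hx)
  have hAbd : BddAbove A := by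
    refine ⟨b, fun x hx => ?_⟩
    by_contra hlt
    rw [hA] at hx
    exact hfull (measure_mono_null (fun y hy => lt_of_le_of_lt hy.2 (not_le.1 hlt)) hx)
  have hBbd : BddBelow B := by
    refine ⟨0, fun x hx => ?_⟩
    by_contra hlt
    rw [hB] at hx
    exact hfull (measure_mono_null (fun y hy => lt_of_lt_of_le (not_le.1 hlt) hy.1) hx)
  have hnA : μ (Iio (sSup A)) = 0 := null_Iio μ A (fun x hx => (hA x).1 hx) ⟨0, hA0⟩
  have hnB : μ (Ioi (sInf B)) = 0 := null_Ioi μ B (fun x hx => (hB x).1 hx) ⟨b, hBb⟩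
  refine ⟨sSup A, sInf B, measure_univ, le_csSup hAbd hA0, ?_, ?_, hat, fun δ hδ => ?_,
    fun δ hδ => ?_⟩
  · by_contra hlt
    have hlt' := not_lt.1 hlt
    have h1 : μ univ = 0 := by
      refine measure_mono_null ?_ (measure_union_null hnA
        (measure_union_null (hat (sSup A)) hnB))
      intro x _
      rcases lt_trichotomy x (sSup A) with h | h | h
      · exact Or.inl h
      · exact Or.inr (Or.inl h)
      · exact Or.inr (Or.inr (lt_of_le_of_lt hlt' h))
    rw [measure_univ] at h1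
    exact one_ne_zero h1
  · refine measure_mono_null ?_ (measure_union_null hnA hnB)
    intro x hx
    rcases lt_or_ge x (sSup A) with h | h
    · exact Or.inl h
    · right
      by_contra h2
      exact hx ⟨h, not_lt.1 h2⟩
  · rw [pos_iff_ne_zero]
    intro h
    have h1 : sSup A + δ ∈ A := by
      rw [hA]
      refine measure_mono_null ?_ (measure_union_null hnA h)
      intro x hx
      rcases lt_or_ge x (sSup A) with h | h
      · exact Or.inl h
      · exact Or.inr ⟨h, le_of_lt hx⟩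
    have h2 := le_csSup hAbd h1
    linarith
  · rw [pos_iff_ne_zero]
    intro h
    have h1 : sInf B - δ ∈ B := by
      rw [hB]
      refine measure_mono_null ?_ (measure_union_null hnB h)
      intro x hx
      rcases lt_or_ge (sInf B) x with h | h
      · exact Or.inl h
      · exact Or.inr ⟨le_of_lt hx, h⟩
    have h2 := csInf_le hBbd h1
    linarith

end Pool.Agent.H16.MX.EXT
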